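import Mathlib

/-!
# A productively Hurewicz space that is not productively Menger, under CH

By recursion along `ω₁` we build a sequence of block sequences `B i` (consecutive nonempty finite
sets of natural numbers), decreasing in the sense that almost all blocks of the later ones are
finite unions of blocks of the earlier ones.  The points `yy (B i)` (the union of the blocks,
with some elements labelled) have supports forming an unbounded tower, so together with the
finitely supported points they form a productively Hurewicz set `X`.  The set `M` consists of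
the points `yy (B i)` and of all finite modifications of the unlabelled unions; it is Menger, but
the closed subset `{(x, z) : x = z}` of `X × M` is not.
-/

open Set Topology Filter

namespace Pool.Agent.Results.MP_c74059_gt.HurewiczNotMenger

universe u v

/-- `𝒰` is an open cover of the space `X`. -/
def OpenCover {X : Type u} [TopologicalSpace X] (𝒰 : Set (Set X)) : Prop :=
  (∀ U ∈ 𝒰, IsOpen U) ∧ ⋃₀ 𝒰 = univ

/-- Menger spaces: from every sequence of open covers one can choose finite subfamilies whose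
union covers the space. -/
def Menger (X : Type u) [TopologicalSpace X] : Prop :=
  ∀ 𝒰 : ℕ → Set (Set X), (∀ n, OpenCover (𝒰 n)) →
    ∃ ℱ : ℕ → Set (Set X), (∀ n, (ℱ n).Finite ∧ ℱ n ⊆ 𝒰 n) ∧ ∀ x : X, ∃ n, x ∈ ⋃₀ ℱ n

/-- Hurewicz spaces: from every sequence of open covers one can choose finite subfamilies such
that every point is covered by all but finitely many of them. -/
def Hurewicz (X : Type u) [TopologicalSpace X] : Prop :=
  ∀ 𝒰 : ℕ → Set (Set X), (∀ n, OpenCover (𝒰 n)) →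
    ∃ ℱ : ℕ → Set (Set X), (∀ n, (ℱ n).Finite ∧ ℱ n ⊆ 𝒰 n) ∧
      ∀ x : X, ∃ N, ∀ n, N ≤ n → x ∈ ⋃₀ ℱ n

/-- Productively Hurewicz spaces: the product with every Hurewicz space is Hurewicz. -/
def ProductivelyHurewicz (X : Type u) [TopologicalSpace X] : Prop :=
  ∀ (Y : Type v) [TopologicalSpace Y], Hurewicz Y → Hurewicz (X × Y)

/-- The compact space in which everything happens. -/
abbrev K : Type := ℕ → Fin 3

section PH

/-- a neighbourhood of a point of a product with a subspace of `K` contains a box -/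
lemma box_nhds {X : Set K} {Y : Type v} [TopologicalSpace Y] (x : X) (y : Y)
    (U : Set (X × Y)) (hU : IsOpen U) (hxy : (x, y) ∈ U) :
    ∃ (k : ℕ) (V : Set Y), IsOpen V ∧ y ∈ V ∧ ∀ x' : X, (∀ q < k, x'.1 q = x.1 q) →
      ∀ y' ∈ V, (x', y') ∈ U := by
  obtain ⟨A, V, hA, hV, hxA, hyV, hAV⟩ := isOpen_prod_iff.1 hU x y hxy
  obtain ⟨A', hA', rfl⟩ := isOpen_induced_iff.1 hA
  obtain ⟨I, v, hIv, hsub⟩ := isOpen_pi_iff.1 hA' x.1 hxA
  refine ⟨I.sup id + 1, V, hV, hyV, fun x' hx' y' hy' => hAV ⟨hsub ?_, hy'⟩⟩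
  intro i hi
  have : i < I.sup id + 1 := Nat.lt_succ_of_le (Finset.le_sup (f := id) hi)
  show x'.1 i ∈ v i
  rw [hx' i this]
  exact (hIv i hi).2

/-- zero extension of the restriction -/
def cut (n : ℕ) (z : K) : K := fun q => if q < n then z q else 0

lemma step_one {X : Set K} (hX : ∀ z : K, (∃ k, ∀ q, k ≤ q → z q = 0) → z ∈ X)
    {Y : Type v} [TopologicalSpace Y] (hY : Hurewicz Y) (𝒰 : ℕ → Set (Set (X × Y)))
    (h𝒰 : ∀ n, OpenCover (𝒰 n)) :
    ∃ (g : ℕ → ℕ) (Φ : ℕ → ℕ → Set (Set (X × Y))),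
      (∀ n m, (Φ n m).Finite ∧ Φ n m ⊆ 𝒰 m) ∧
      ∀ y : Y, ∃ N, ∀ n, N ≤ n → ∀ m ≤ n, ∀ x : X, (∀ q, n ≤ q → q < g n → x.1 q = 0) →
        (x, y) ∈ ⋃₀ Φ n m := by
  -- the auxiliary covers of `Y`
  set 𝒲 : ℕ → Set (Set Y) := fun n => {V | IsOpen V ∧ ∃ (k : ℕ) (ℱ : ℕ → Set (Set (X × Y))),
    (∀ m, (ℱ m).Finite ∧ ℱ m ⊆ 𝒰 m) ∧ ∀ m ≤ n, ∀ x : X, (∀ q, n ≤ q → q < k → x.1 q = 0) →
      ∀ y ∈ V, (x, y) ∈ ⋃₀ ℱ m} with h𝒲
  have hcov : ∀ n, OpenCover (𝒲 n) := by
    intro n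
    refine ⟨fun V hV => hV.1, ?_⟩
    rw [eq_univ_iff_forall]
    intro y
    -- points of the finite grid
    have hpt : ∀ s : (Fin n → Fin 3), (fun q => if h : q < n then s ⟨q, h⟩ else 0 : K) ∈ X := by
      intro s
      apply hX
      exact ⟨n, fun q hq => by simp [Nat.not_lt.2 hq]⟩
    have hU : ∀ p : (Fin n → Fin 3) × Fin (n + 1), ∃ U ∈ 𝒰 p.2,
        ((⟨_, hpt p.1⟩ : X), y) ∈ U := by
      intro p
      have : ((⟨_, hpt p.1⟩ : X), y) ∈ ⋃₀ 𝒰 p.2 := by rw [(h𝒰 _).2]; trivial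
      exact this
    choose U hU1 hU2 using hU
    have hB := fun p : (Fin n → Fin 3) × Fin (n + 1) =>
      box_nhds (⟨_, hpt p.1⟩ : X) y (U p) ((h𝒰 _).1 _ (hU1 p)) (hU2 p)
    choose k V hV1 hV2 hV3 using hB
    refine ⟨⋂ p, V p, ⟨isOpen_iInter_of_finite hV1, Finset.univ.sup k,
      fun m => if hm : m < n + 1 then range (fun s => U (s, ⟨m, hm⟩)) else ∅, ?_, ?_⟩,
      mem_iInter.2 hV2⟩
    · intro m
      by_cases hm : m < n + 1
      · simp only [hm, dif_pos]
        refine ⟨finite_range _, ?_⟩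
        rintro _ ⟨s, rfl⟩
        exact hU1 (s, ⟨m, hm⟩)
      · simp only [hm, dif_neg, not_false_eq_true]
        exact ⟨finite_empty, empty_subset _⟩
    · intro m hm x hx y' hy'
      have hm' : m < n + 1 := Nat.lt_succ_of_le hm
      simp only [hm', dif_pos]
      refine ⟨U ((fun i : Fin n => x.1 i), ⟨m, hm'⟩), ⟨_, rfl⟩, ?_⟩
      refine hV3 ((fun i : Fin n => x.1 i), ⟨m, hm'⟩) x ?_ y' (mem_iInter.1 hy' _)
      intro q hq
      by_cases hqn : q < n
      · simp [hqn]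
      · simp only [hqn, dif_neg, not_false_eq_true]
        refine hx q (Nat.not_lt.1 hqn) (lt_of_lt_of_le hq ?_)
        exact Finset.le_sup (f := k) (Finset.mem_univ _)
  obtain ⟨𝒢, h𝒢, hfin⟩ := hY 𝒲 hcov
  have hch : ∀ n, ∀ V : 𝒢 n, ∃ (k : ℕ) (ℱ : ℕ → Set (Set (X × Y))),
      (∀ m, (ℱ m).Finite ∧ ℱ m ⊆ 𝒰 m) ∧ ∀ m ≤ n, ∀ x : X, (∀ q, n ≤ q → q < k → x.1 q = 0) →
      ∀ y ∈ V.1, (x, y) ∈ ⋃₀ ℱ m := fun n V => ((h𝒢 n).2 V.2).2
  choose k ℱ hℱ1 hℱ2 using hch
  have hft : ∀ n, Fintype (𝒢 n) := fun n => (h𝒢 n).1.fintype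
  refine ⟨fun n => Finset.univ.sup (k n), fun n m => ⋃ V : 𝒢 n, ℱ n V m, ?_, ?_⟩
  · intro n m
    have : Finite (𝒢 n) := (h𝒢 n).1
    exact ⟨finite_iUnion (fun V => (hℱ1 n V m).1), iUnion_subset (fun V => (hℱ1 n V m).2)⟩
  · intro y
    obtain ⟨N, hN⟩ := hfin y
    refine ⟨N, fun n hn m hm x hx => ?_⟩
    obtain ⟨V, hV, hyV⟩ := hN n hn
    have h1 := hℱ2 n ⟨V, hV⟩ m hm x (fun q hq1 hq2 => hx q hq1 (lt_of_lt_of_le hq2
      (Finset.le_sup (f := k n) (Finset.mem_univ (⟨V, hV⟩ : 𝒢 n))))) y hyV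
    obtain ⟨W, hW, hxW⟩ := h1
    exact ⟨W, mem_iUnion.2 ⟨⟨V, hV⟩, hW⟩, hxW⟩

lemma step_point {X : Set K} {Y : Type v} [TopologicalSpace Y] (hY : Hurewicz Y)
    (𝒰 : ℕ → Set (Set (X × Y))) (h𝒰 : ∀ n, OpenCover (𝒰 n)) (x : X) :
    ∃ ℱ : ℕ → Set (Set (X × Y)), (∀ n, (ℱ n).Finite ∧ ℱ n ⊆ 𝒰 n) ∧
      ∀ y : Y, ∃ N, ∀ n, N ≤ n → (x, y) ∈ ⋃₀ ℱ n := by
  have hc : Continuous (fun y : Y => (x, y)) := by fun_prop
  obtain ⟨𝒢, h𝒢, hfin⟩ := hY (fun n => (fun U => (fun y : Y => (x, y)) ⁻¹' U) '' 𝒰 n) (by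
    intro n
    refine ⟨?_, ?_⟩
    · rintro _ ⟨U, hU, rfl⟩
      exact ((h𝒰 n).1 U hU).preimage hc
    · rw [eq_univ_iff_forall]
      intro y
      have : (x, y) ∈ ⋃₀ 𝒰 n := by rw [(h𝒰 n).2]; trivial
      obtain ⟨U, hU, hxU⟩ := this
      exact ⟨_, ⟨U, hU, rfl⟩, hxU⟩)
  have hch : ∀ n, ∀ V : 𝒢 n, ∃ U ∈ 𝒰 n, (fun y : Y => (x, y)) ⁻¹' U = V.1 :=
    fun n V => (h𝒢 n).2 V.2
  choose U hU1 hU2 using hch
  refine ⟨fun n => range (U n), ?_, ?_⟩
  · intro n
    have : Finite (𝒢 n) := (h𝒢 n).1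
    refine ⟨finite_range _, ?_⟩
    rintro _ ⟨V, rfl⟩
    exact hU1 n V
  · intro y
    obtain ⟨N, hN⟩ := hfin y
    refine ⟨N, fun n hn => ?_⟩
    obtain ⟨V, hV, hyV⟩ := hN n hn
    refine ⟨U n ⟨V, hV⟩, ⟨_, rfl⟩, ?_⟩
    have h2 := hU2 n ⟨V, hV⟩
    have : y ∈ (fun y : Y => (x, y)) ⁻¹' U n ⟨V, hV⟩ := by rw [h2]; exact hyV
    exact this

/-- Unbounded tower sets of length `ω₁` are productively Hurewicz. -/
theorem tower_productivelyHurewicz {ι : Type} [LinearOrder ι]
    (hcount : ∀ i : ι, (Iio i).Countable) (x : ι → K)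
    (tower : ∀ i j, i ≤ j → ∃ k, ∀ q, k ≤ q → x i q = 0 → x j q = 0)
    (unb : ∀ g : ℕ → ℕ, ∃ i, ∀ N, ∃ n, N ≤ n ∧ ∀ q, n ≤ q → q < g n → x i q = 0) :
    ProductivelyHurewicz.{0, v} ↥(range x ∪ {z : K | ∃ k, ∀ q, k ≤ q → z q = 0}) := by
  intro Y _ hY 𝒰 h𝒰
  obtain ⟨g, Φ, hΦ1, hΦ2⟩ := step_one (fun z hz => Or.inr hz) hY 𝒰 h𝒰
  obtain ⟨i0, hi0⟩ := unb g
  choose nn hnn1 hnn2 using hi0
  have hmemx : ∀ i, x i ∈ range x ∪ {z : K | ∃ k, ∀ q, k ≤ q → z q = 0} :=
    fun i => Or.inl ⟨i, rfl⟩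
  have hpt := fun i : Iio i0 => step_point hY 𝒰 h𝒰 ⟨x i.1, hmemx i.1⟩
  choose ℱ hℱ1 hℱ2 using hpt
  have hci : Countable (Iio i0) := hcount i0
  obtain ⟨e, he⟩ := exists_injective_nat (Iio i0)
  refine ⟨fun m => Φ (nn m) m ∪ ⋃ i ∈ {i : Iio i0 | e i ≤ m}, ℱ i m, ?_, ?_⟩
  · intro m
    have hf : {i : Iio i0 | e i ≤ m}.Finite := (finite_Iic m).preimage he.injOn
    exact ⟨(hΦ1 _ _).1.union (hf.biUnion (fun i _ => (hℱ1 i m).1)),
      union_subset (hΦ1 _ _).2 (iUnion₂_subset (fun i _ => (hℱ1 i m).2))⟩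
  · rintro ⟨⟨z, hz⟩, y⟩
    obtain ⟨N, hN⟩ := hΦ2 y
    -- a sufficient condition
    have key : (∃ k, ∀ m, k ≤ m → ∀ q, nn m ≤ q → q < g (nn m) → z q = 0) →
        ∃ N, ∀ n, N ≤ n → ((⟨z, hz⟩, y) : ↥(range x ∪ {z : K | ∃ k, ∀ q, k ≤ q → z q = 0}) × Y) ∈
          ⋃₀ (Φ (nn n) n ∪ ⋃ i ∈ {i : Iio i0 | e i ≤ n}, ℱ i n) := by
      rintro ⟨k, hk⟩
      refine ⟨max N k, fun m hm => ?_⟩
      have h1 : N ≤ nn m := (le_trans (le_max_left _ _) hm).trans (hnn1 m)
      have h2 := hN (nn m) h1 m (hnn1 m) ⟨z, hz⟩ (hk m (le_trans (le_max_right _ _) hm))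
      obtain ⟨W, hW, hxW⟩ := h2
      exact ⟨W, Or.inl hW, hxW⟩
    rcases hz with ⟨i, rfl⟩ | ⟨k, hk⟩
    · rcases lt_or_ge i i0 with hi | hi
      · obtain ⟨N', hN'⟩ := hℱ2 ⟨i, hi⟩ y
        refine ⟨max N' (e ⟨i, hi⟩), fun m hm => ?_⟩
        obtain ⟨W, hW, hxW⟩ := hN' m (le_trans (le_max_left _ _) hm)
        exact ⟨W, Or.inr (mem_iUnion₂.2 ⟨⟨i, hi⟩, le_trans (le_max_right _ _) hm, hW⟩), hxW⟩
      · apply key
        obtain ⟨k, hk⟩ := tower i0 i hi
        refine ⟨k, fun m hm q hq1 hq2 => ?_⟩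
        exact hk q (hm.trans ((hnn1 m).trans hq1)) (hnn2 m q hq1 hq2)
    · apply key
      exact ⟨k, fun m hm q hq1 _ => hk q (hm.trans ((hnn1 m).trans hq1))⟩

end PH


section Recursion

/-- Transfinite recursion along an order with countable initial segments. -/
theorem rec_lemma {P : Type} [Nonempty P] (R : P → P → Prop) (hrefl : ∀ a, R a a)
    (htrans : ∀ a b c, R a b → R b c → R a c)
    (hlow : ∀ s : ℕ → P, (∀ n, R (s (n + 1)) (s n)) → ∃ q, ∀ n, R q (s n))
    {ι : Type} [LinearOrder ι] [WellFoundedLT ι] (hcount : ∀ i : ι, (Iio i).Countable)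
    (D : ι → P → Prop) (hD : ∀ i p, ∃ q, R q p ∧ D i q) :
    ∃ p : ι → P, (∀ i j, i < j → R (p j) (p i)) ∧ ∀ i, D i (p i) := by
  classical
  let F : (i : ι) → ((j : ι) → j < i → P) → P := fun i rec =>
    if h : ∃ q, (∀ j (hj : j < i), R q (rec j hj)) ∧ D i q then h.choose
    else Classical.arbitrary P
  let p : ι → P := WellFounded.fix (wellFounded_lt (α := ι)) F
  have hp : ∀ i, p i = if h : ∃ q, (∀ j, j < i → R q (p j)) ∧ D i q then h.choose
      else Classical.arbitrary P := by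
    intro i
    show WellFounded.fix (wellFounded_lt (α := ι)) F i = _
    rw [WellFounded.fix_eq]
  have key : ∀ i, (∀ j, j < i → R (p i) (p j)) ∧ D i (p i) := by
    intro i
    induction i using WellFoundedLT.induction with
    | _ i ih =>
      have hex : ∃ q, (∀ j, j < i → R q (p j)) ∧ D i q := by
        rcases (Iio i).eq_empty_or_nonempty with he | hne
        · obtain ⟨q, _, hq⟩ := hD i (Classical.arbitrary P)
          refine ⟨q, fun j hj => ?_, hq⟩
          have : j ∈ Iio i := hj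
          rw [he] at this
          exact absurd this (notMem_empty j)
        · obtain ⟨e, he⟩ := (hcount i).exists_eq_range hne
          have heI : ∀ n, e n < i := by
            intro n
            have : e n ∈ Iio i := by rw [he]; exact ⟨n, rfl⟩
            exact this
          let m : ℕ → ι := fun n => Nat.rec (e 0) (fun n r => max r (e (n + 1))) n
          have hm0 : m 0 = e 0 := rfl
          have hms : ∀ n, m (n + 1) = max (m n) (e (n + 1)) := fun n => rfl
          have hmi : ∀ n, m n < i := by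
            intro n
            induction n with
            | zero => exact heI 0
            | succ n ihn => rw [hms]; exact max_lt ihn (heI _)
          have hem : ∀ n, e n ≤ m n := by
            intro n
            cases n with
            | zero => exact le_rfl
            | succ n => rw [hms]; exact le_max_right _ _
          have hstep : ∀ a b, b ≤ a → a < i → R (p a) (p b) := by
            intro a b hba hai
            rcases hba.lt_or_eq with h | h
            · exact (ih a hai).1 b h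
            · rw [h]; exact hrefl _
          obtain ⟨q0, hq0⟩ := hlow (fun n => p (m n)) (fun n =>
            hstep (m (n + 1)) (m n) (by rw [hms]; exact le_max_left _ _) (hmi (n + 1)))
          obtain ⟨q, hq, hqD⟩ := hD i q0
          refine ⟨q, fun j hj => ?_, hqD⟩
          have hj' : j ∈ range e := by rw [← he]; exact hj
          obtain ⟨n, rfl⟩ := hj'
          exact htrans _ _ _ hq (htrans _ _ _ (hq0 n) (hstep _ _ (hem n) (hmi n)))
      rw [hp i, dif_pos hex]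
      exact hex.choose_spec
  exact ⟨p, fun i j hij => (key j).1 i hij, fun i => (key i).2⟩

end Recursion

section Blocks

/-- Block sequences: consecutive nonempty finite sets. -/
def IsBlock (B : ℕ → Finset ℕ) : Prop :=
  (∀ n, (B n).Nonempty) ∧ ∀ n, ∀ a ∈ B n, ∀ b ∈ B (n + 1), a < b

lemma IsBlock.lt {B : ℕ → Finset ℕ} (h : IsBlock B) {i j : ℕ} (hij : i < j) {a b : ℕ}
    (ha : a ∈ B i) (hb : b ∈ B j) : a < b := by
  induction j generalizing b with
  | zero => omega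
  | succ j ih =>
    rcases Nat.lt_succ_iff_lt_or_eq.1 hij with h1 | h1
    · obtain ⟨c, hc⟩ := h.1 j
      exact (ih h1 hc).trans (h.2 j c hc b hb)
    · subst h1
      exact h.2 i a ha b hb

lemma IsBlock.le_of_mem {B : ℕ → Finset ℕ} (h : IsBlock B) {n a : ℕ} (ha : a ∈ B n) : n ≤ a := by
  induction n generalizing a with
  | zero => exact Nat.zero_le a
  | succ n ih =>
    obtain ⟨c, hc⟩ := h.1 n
    have := ih hc
    have := h.2 n c hc a ha
    omega

lemma IsBlock.eq_of_mem {B : ℕ → Finset ℕ} (h : IsBlock B) {i j a : ℕ} (hi : a ∈ B i)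
    (hj : a ∈ B j) : i = j := by
  rcases lt_trichotomy i j with h1 | h1 | h1
  · exact absurd (h.lt h1 hi hj) (lt_irrefl _)
  · exact h1
  · exact absurd (h.lt h1 hj hi) (lt_irrefl _)

/-- `c` is a finite union of blocks of `B`. -/
def UnionOf (B : ℕ → Finset ℕ) (c : Finset ℕ) : Prop := ∃ F : Finset ℕ, c = F.biUnion B

lemma unionOf_block (B : ℕ → Finset ℕ) (n : ℕ) : UnionOf B (B n) :=
  ⟨{n}, by rw [Finset.singleton_biUnion]⟩

/-- Almost all blocks of `C` are finite unions of blocks of `B`. -/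
def Ref (C B : ℕ → Finset ℕ) : Prop := ∃ k, ∀ j, k ≤ j → UnionOf B (C j)

lemma Ref.refl (B : ℕ → Finset ℕ) : Ref B B := ⟨0, fun j _ => unionOf_block B j⟩

lemma Ref.trans {D C B : ℕ → Finset ℕ} (hD : IsBlock D) (h1 : Ref D C)
    (h2 : Ref C B) : Ref D B := by
  obtain ⟨k1, hk1⟩ := h1
  obtain ⟨k2, hk2⟩ := h2
  -- a bound for the elements of the first blocks of `C`
  set M := ((Finset.range k2).biUnion C).sup id with hM
  refine ⟨max k1 (M + 1), fun j hj => ?_⟩
  obtain ⟨F, hF⟩ := hk1 j (le_trans (le_max_left _ _) hj)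
  have hk : ∀ i ∈ F, (C i).Nonempty → k2 ≤ i := by
    intro i hi hne
    by_contra hlt
    obtain ⟨a, ha⟩ := hne
    have h3 : a ∈ D j := by rw [hF]; exact Finset.mem_biUnion.2 ⟨i, hi, ha⟩
    have h4 : j ≤ a := hD.le_of_mem h3
    have h5 : a ≤ M := Finset.le_sup (f := id)
      (Finset.mem_biUnion.2 ⟨i, Finset.mem_range.2 (not_le.1 hlt), ha⟩)
    have h6 : M + 1 ≤ j := le_trans (le_max_right _ _) hj
    omega
  have hG : ∀ i, ∃ G : Finset ℕ, (i ∈ F → C i = G.biUnion B) := by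
    intro i
    by_cases hi : i ∈ F
    · rcases (C i).eq_empty_or_nonempty with he | hne
      · exact ⟨∅, fun _ => by rw [he, Finset.biUnion_empty]⟩
      · obtain ⟨G, hG⟩ := hk2 i (hk i hi hne)
        exact ⟨G, fun _ => hG⟩
    · exact ⟨∅, fun h => absurd h hi⟩
  choose G hG using hG
  refine ⟨F.biUnion G, ?_⟩
  rw [hF]
  ext a
  simp only [Finset.mem_biUnion]
  constructor
  · rintro ⟨i, hi, ha⟩
    rw [hG i hi] at ha
    obtain ⟨n, hn, ha⟩ := Finset.mem_biUnion.1 ha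
    exact ⟨n, ⟨i, hi, hn⟩, ha⟩
  · rintro ⟨n, ⟨i, hi, hn⟩, ha⟩
    refine ⟨i, hi, ?_⟩
    rw [hG i hi]
    exact Finset.mem_biUnion.2 ⟨n, hn, ha⟩

/-- Construction of block sequences by recursion. -/
lemma exists_blocks (P : ℕ → Finset ℕ → Prop)
    (hP : ∀ n m, ∃ c : Finset ℕ, c.Nonempty ∧ P n c ∧ ∀ a ∈ c, m ≤ a) (h : ℕ → ℕ) :
    ∃ C : ℕ → Finset ℕ, IsBlock C ∧ (∀ n, P n (C n)) ∧ (∀ a ∈ C 0, h 0 ≤ a) ∧
      ∀ n, ∀ a ∈ C n, ∀ b ∈ C (n + 1), h (a + 1) ≤ b := by
  choose f hf1 hf2 hf3 using hP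
  let C : ℕ → Finset ℕ := fun n => Nat.rec (f 0 (h 0))
    (fun n r => f (n + 1) (r.sup (fun a => max (a + 1) (h (a + 1))))) n
  have h0 : C 0 = f 0 (h 0) := rfl
  have hs : ∀ n, C (n + 1) = f (n + 1) ((C n).sup (fun a => max (a + 1) (h (a + 1)))) :=
    fun n => rfl
  have hstep : ∀ n, ∀ a ∈ C n, ∀ b ∈ C (n + 1), max (a + 1) (h (a + 1)) ≤ b := by
    intro n a ha b hb
    rw [hs] at hb
    exact (Finset.le_sup (f := fun a => max (a + 1) (h (a + 1))) ha).trans (hf3 _ _ b hb)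
  refine ⟨C, ⟨?_, ?_⟩, ?_, ?_, ?_⟩
  · intro n
    cases n with
    | zero => exact hf1 _ _
    | succ n => rw [hs]; exact hf1 _ _
  · intro n a ha b hb
    have := (le_max_left _ _).trans (hstep n a ha b hb)
    omega
  · intro n
    cases n with
    | zero => exact hf2 _ _
    | succ n => rw [hs]; exact hf2 _ _
  · intro a ha
    exact hf3 _ _ a ha
  · intro n a ha b hb
    exact (le_max_right _ _).trans (hstep n a ha b hb)

lemma exists_lower (B : ℕ → ℕ → Finset ℕ) (hB : ∀ n, IsBlock (B n))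
    (hdec : ∀ n, Ref (B (n + 1)) (B n)) : ∃ C, IsBlock C ∧ ∀ n, Ref C (B n) := by
  have hle : ∀ n i, i ≤ n → Ref (B n) (B i) := by
    intro n
    induction n with
    | zero =>
      intro i hi
      have : i = 0 := by omega
      subst this
      exact Ref.refl _
    | succ n ih =>
      intro i hi
      rcases Nat.of_le_succ hi with h1 | h1
      · exact Ref.trans (hB _) (hdec n) (ih i h1)
      · subst h1; exact Ref.refl _
  obtain ⟨C, hC, hCP, _, _⟩ := exists_blocks (fun n c => ∀ i ≤ n, UnionOf (B i) c) (by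
    intro n m
    have h1 : ∀ i : Fin (n + 1), ∃ k, ∀ j, k ≤ j → UnionOf (B i) (B n j) :=
      fun i => hle n i (Nat.lt_succ_iff.1 i.2)
    choose k hk using h1
    refine ⟨B n (max m (Finset.univ.sup k)), (hB n).1 _, ?_, ?_⟩
    · intro i hi
      exact hk ⟨i, Nat.lt_succ_iff.2 hi⟩ _ ((Finset.le_sup (f := k) (Finset.mem_univ _)).trans
        (le_max_right _ _))
    · intro a ha
      exact (le_max_left _ _).trans ((hB n).le_of_mem ha)) (fun _ => 0)
  exact ⟨C, hC, fun n => ⟨n, fun j hj => hCP j n hj⟩⟩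

/-- The gap requirement for `h`. -/
def Gap (h : ℕ → ℕ) (C : ℕ → Finset ℕ) : Prop :=
  (∀ a ∈ C 0, h 0 ≤ a) ∧ ∀ n, ∀ a ∈ C n, ∀ b ∈ C (n + 1), h (a + 1) ≤ b

lemma exists_gap (h : ℕ → ℕ) (B : ℕ → Finset ℕ) (hB : IsBlock B) :
    ∃ C, IsBlock C ∧ Ref C B ∧ Gap h C := by
  obtain ⟨C, hC, hCP, h0, h1⟩ := exists_blocks (fun _ c => UnionOf B c) (by
    intro n m
    exact ⟨B m, hB.1 m, unionOf_block B m, fun a ha => hB.le_of_mem ha⟩) h
  exact ⟨C, hC, ⟨0, fun j _ => hCP j⟩, h0, h1⟩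

/-- Codes of basic clopen sets of `K`. -/
abbrev Code : Type := Finset (ℕ × Fin 3)

/-- The basic clopen set of a code. -/
def cyl (l : Code) : Set K := {z | ∀ p ∈ l, z p.1 = p.2}

/-- The union of the blocks. -/
def xs (B : ℕ → Finset ℕ) : Set ℕ := {q | ∃ n, q ∈ B n}

open Classical in
/-- Characteristic function with value `1`. -/
noncomputable def chi (S : Set ℕ) : K := fun q => if q ∈ S then 1 else 0

/-- Equality up to finitely many places. -/
def AlmostEq (z w : K) : Prop := ∃ k, ∀ q, k ≤ q → z q = w q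

/-- `z` coincides with the characteristic function of `c` between `min c` and `max c`. -/
def Fits (z : K) (c : Finset ℕ) : Prop :=
  ∀ q, (∃ a ∈ c, a ≤ q) → (∃ b ∈ c, q ≤ b) → z q = chi c q

/-- What is achieved for the sequence of families `𝒱`. -/
def MStep (𝒱 : ℕ → Set Code) (C : ℕ → Finset ℕ) : Prop :=
  (∃ n z, AlmostEq z (chi (xs C)) ∧ ∀ l ∈ 𝒱 n, z ∉ cyl l) ∨
    ∃ ℱ : ℕ → Set Code, (∀ n, (ℱ n).Finite ∧ ℱ n ⊆ 𝒱 n) ∧
      ∀ n z, Fits z (C n) → ∃ l ∈ ℱ n, z ∈ cyl l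

lemma exists_mstep (𝒱 : ℕ → Set Code) (B : ℕ → Finset ℕ) (hB : IsBlock B) :
    ∃ C, IsBlock C ∧ Ref C B ∧ MStep 𝒱 C := by
  by_cases hcase : ∃ C, IsBlock C ∧ Ref C B ∧
      ∃ n z, AlmostEq z (chi (xs C)) ∧ ∀ l ∈ 𝒱 n, z ∉ cyl l
  · obtain ⟨C, h1, h2, h3⟩ := hcase
    exact ⟨C, h1, h2, Or.inl h3⟩
  push Not at hcase
  obtain ⟨C, hC, hCP, _, _⟩ := exists_blocks (fun n c => UnionOf B c ∧
      ∃ ℱ : Set Code, ℱ.Finite ∧ ℱ ⊆ 𝒱 n ∧ ∀ z, Fits z c → ∃ l ∈ ℱ, z ∈ cyl l) (by
    intro n m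
    set C' : ℕ → Finset ℕ := fun j => B (m + j) with hC'
    have hC'b : IsBlock C' := ⟨fun j => hB.1 _, fun j a ha b hb => hB.2 (m + j) a ha b hb⟩
    have hC'r : Ref C' B := ⟨0, fun j _ => unionOf_block B _⟩
    obtain ⟨m1, hm1⟩ := hB.1 m
    -- the points
    set zz : (Fin m1 → Fin 3) → K := fun s q => if h : q < m1 then s ⟨q, h⟩ else
      chi (xs C') q with hzz
    have hAE : ∀ s, AlmostEq (zz s) (chi (xs C')) := fun s =>
      ⟨m1, fun q hq => by simp [hzz, Nat.not_lt.2 hq]⟩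
    have hl : ∀ s, ∃ l ∈ 𝒱 n, zz s ∈ cyl l := fun s => hcase C' hC'b hC'r n (zz s) (hAE s)
    choose l hl1 hl2 using hl
    set L : ℕ := Finset.univ.sup (fun s => (l s).sup (fun p => p.1 + 1)) with hL
    have hLp : ∀ s, ∀ p ∈ l s, p.1 < L := by
      intro s p hp
      have h1 : p.1 + 1 ≤ (l s).sup (fun p => p.1 + 1) :=
        Finset.le_sup (f := fun p : ℕ × Fin 3 => p.1 + 1) hp
      have h2 : (l s).sup (fun p => p.1 + 1) ≤ L :=
        Finset.le_sup (f := fun s => (l s).sup (fun p => p.1 + 1)) (Finset.mem_univ s)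
      omega
    set i1 := max m L with hi1
    refine ⟨(Finset.Icc m i1).biUnion B, ?_, ⟨⟨_, rfl⟩, range l, finite_range l, ?_, ?_⟩, ?_⟩
    · exact ⟨m1, Finset.mem_biUnion.2 ⟨m, Finset.mem_Icc.2 ⟨le_rfl, le_max_left _ _⟩, hm1⟩⟩
    · rintro _ ⟨s, rfl⟩
      exact hl1 s
    · intro z hz
      refine ⟨l (fun i => z i), ⟨_, rfl⟩, fun p hp => ?_⟩
      have h1 := hl2 (fun i => z i) p hp
      rw [← h1]
      by_cases hq : p.1 < m1
      · simp [hzz, hq]
      · have hq' : m1 ≤ p.1 := not_lt.1 hq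
        have hpL := hLp _ p hp
        obtain ⟨b, hb⟩ := hB.1 i1
        have hbi : i1 ≤ b := hB.le_of_mem hb
        have hLi : L ≤ i1 := le_max_right _ _
        have h2 := hz p.1 ⟨m1, Finset.mem_biUnion.2 ⟨m, Finset.mem_Icc.2
          ⟨le_rfl, le_max_left _ _⟩, hm1⟩, hq'⟩ ⟨b, Finset.mem_biUnion.2 ⟨i1, Finset.mem_Icc.2
          ⟨le_max_left _ _, le_rfl⟩, hb⟩, by omega⟩
        rw [h2]
        have h3 : zz (fun i => z i) p.1 = chi (xs C') p.1 := by simp [hzz, hq]
        rw [h3]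
        have hiff : (p.1 ∈ ((((Finset.Icc m i1).biUnion B : Finset ℕ)) : Set ℕ)) ↔
            p.1 ∈ xs C' := by
          constructor
          · intro h
            obtain ⟨i, hi, hpi⟩ := Finset.mem_biUnion.1 (Finset.mem_coe.1 h)
            have := (Finset.mem_Icc.1 hi).1
            refine ⟨i - m, ?_⟩
            show p.1 ∈ B (m + (i - m))
            rw [Nat.add_sub_cancel' this]
            exact hpi
          · rintro ⟨j, hj⟩
            refine Finset.mem_coe.2 (Finset.mem_biUnion.2 ⟨m + j, Finset.mem_Icc.2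
              ⟨Nat.le_add_right _ _, ?_⟩, hj⟩)
            by_contra hlt
            have := hB.lt (not_le.1 hlt) hb hj
            omega
        unfold chi
        by_cases h4 : p.1 ∈ xs C'
        · rw [if_pos h4, if_pos (hiff.2 h4)]
        · rw [if_neg h4, if_neg (fun h => h4 (hiff.1 h))]
    · intro a ha
      obtain ⟨i, hi, hai⟩ := Finset.mem_biUnion.1 ha
      exact (Finset.mem_Icc.1 hi).1.trans (hB.le_of_mem hai)) (fun _ => 0)
  refine ⟨C, hC, ⟨0, fun j _ => (hCP j).1⟩, Or.inr ?_⟩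
  choose ℱ h1 h2 h3 using fun n => (hCP n).2
  exact ⟨ℱ, fun n => ⟨h1 n, h2 n⟩, fun n z hz => h3 n z hz⟩

/-- The sequence of block sequences produced from the continuum hypothesis. -/
theorem exists_sequence (hCH : Cardinal.continuum.{0} = Cardinal.aleph 1) :
    ∃ (ι : Type) (_ : LinearOrder ι) (B : ι → ℕ → Finset ℕ), (∀ i : ι, (Iio i).Countable) ∧
      (∀ i, IsBlock (B i)) ∧ (∀ i j, i < j → Ref (B j) (B i)) ∧
      (∀ h : ℕ → ℕ, ∃ i, Gap h (B i)) ∧ ∀ 𝒱 : ℕ → Set Code, ∃ i, MStep 𝒱 (B i) := by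
  let ι : Type := (Cardinal.aleph 1).ord.ToType
  have hι : Cardinal.mk ι = Cardinal.aleph 1 := Cardinal.mk_ord_toType _
  have hcount : ∀ i : ι, (Iio i).Countable := by
    intro i
    rw [← Cardinal.le_aleph0_iff_set_countable, ← Cardinal.lt_aleph_one_iff]
    exact lt_of_lt_of_eq (Cardinal.mk_Iio_lt i (by rw [hι]; simp [ι])) hι
  let Task : Type := (ℕ → ℕ) ⊕ (ℕ → Set Code)
  have hTask : Cardinal.mk Task ≤ Cardinal.mk ι := by
    rw [hι, ← hCH]
    have h1 : Cardinal.mk (ℕ → ℕ) ≤ Cardinal.continuum := by simp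
    have h2 : Cardinal.mk (ℕ → Set Code) ≤ Cardinal.continuum := by
      simp
    calc Cardinal.mk Task = Cardinal.mk (ℕ → ℕ) + Cardinal.mk (ℕ → Set Code) := by
          simp [Task]
      _ ≤ Cardinal.continuum + Cardinal.continuum := add_le_add h1 h2
      _ = Cardinal.continuum := by simp
  obtain ⟨f⟩ := Cardinal.le_def _ _ |>.1 hTask
  have hne : Nonempty Task := ⟨Sum.inl id⟩
  have hsurj : Function.Surjective (Function.invFun f) := Function.invFun_surjective f.injective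
  let P : Type := {B : ℕ → Finset ℕ // IsBlock B}
  have hPne : Nonempty P := ⟨⟨fun n => {n}, fun n => Finset.singleton_nonempty n, by simp⟩⟩
  obtain ⟨p, hp1, hp2⟩ := rec_lemma (P := P) (fun C B => Ref C.1 B.1) (fun B => Ref.refl _)
    (fun a b c h1 h2 => Ref.trans a.2 h1 h2)
    (by
      intro s hs
      obtain ⟨C, hC, hC2⟩ := exists_lower (fun n => (s n).1) (fun n => (s n).2) hs
      exact ⟨⟨C, hC⟩, hC2⟩) hcount
    (fun i B => match Function.invFun f i with
      | Sum.inl h => Gap h B.1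
      | Sum.inr 𝒱 => MStep 𝒱 B.1)
    (by
      intro i B
      match Function.invFun f i with
      | Sum.inl h =>
        obtain ⟨C, h1, h2, h3⟩ := exists_gap h B.1 B.2
        exact ⟨⟨C, h1⟩, h2, h3⟩
      | Sum.inr 𝒱 =>
        obtain ⟨C, h1, h2, h3⟩ := exists_mstep 𝒱 B.1 B.2
        exact ⟨⟨C, h1⟩, h2, h3⟩)
  refine ⟨ι, inferInstance, fun i => (p i).1, hcount, fun i => (p i).2, hp1, ?_, ?_⟩
  · intro h
    obtain ⟨i, hi⟩ := hsurj (Sum.inl h)
    refine ⟨i, ?_⟩
    have := hp2 i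
    rw [hi] at this
    exact this
  · intro 𝒱
    obtain ⟨i, hi⟩ := hsurj (Sum.inr 𝒱)
    refine ⟨i, ?_⟩
    have := hp2 i
    rw [hi] at this
    exact this

end Blocks

section Final

/-- Good points over a block sequence. -/
def Good (C : ℕ → Finset ℕ) (z : K) : Prop :=
  (∃ k, ∀ q, k ≤ q → q ∉ xs C → z q = 0) ∧ ∀ N, ∃ j, N ≤ j ∧ ∀ q ∈ C j, z q = 1

lemma exists_fits {C B : ℕ → Finset ℕ} (hC : IsBlock C) (hB : IsBlock B) (hr : Ref C B) {z : K}
    (hz : Good C z) : ∃ n, Fits z (B n) := by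
  obtain ⟨kk, hkk⟩ := hr
  obtain ⟨⟨k, hk⟩, hz2⟩ := hz
  obtain ⟨j, hj, hzj⟩ := hz2 (max kk k)
  have hjk : kk ≤ j := (le_max_left _ _).trans hj
  obtain ⟨F, hF⟩ := hkk j hjk
  obtain ⟨a0, ha0⟩ := hC.1 j
  rw [hF] at ha0
  obtain ⟨n, hn, _⟩ := Finset.mem_biUnion.1 ha0
  have hsub : ∀ q ∈ B n, q ∈ C j := fun q hq => by
    rw [hF]; exact Finset.mem_biUnion.2 ⟨n, hn, hq⟩
  refine ⟨n, ?_⟩
  rintro q ⟨a, ha, haq⟩ ⟨b, hb, hqb⟩
  unfold chi
  by_cases hq : q ∈ B n
  · rw [if_pos (Finset.mem_coe.2 hq)]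
    exact hzj q (hsub q hq)
  · rw [if_neg (fun h => hq (Finset.mem_coe.1 h))]
    apply hk
    · have := hC.le_of_mem (hsub a ha)
      have := (le_max_right kk k).trans hj
      omega
    · rintro ⟨j', hj'⟩
      rcases lt_or_ge j' kk with h1 | h1
      · have := hC.lt (lt_of_lt_of_le h1 hjk) hj' (hsub a ha)
        omega
      · obtain ⟨F', hF'⟩ := hkk j' h1
        rw [hF'] at hj'
        obtain ⟨n', _, hqn'⟩ := Finset.mem_biUnion.1 hj'
        rcases lt_trichotomy n n' with h2 | h2 | h2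
        · have := hB.lt h2 hb hqn'
          omega
        · subst h2
          exact hq hqn'
        · have := hB.lt h2 hqn' ha
          omega

open Classical in
/-- The labelled point over a block sequence. -/
noncomputable def yy (C : ℕ → Finset ℕ) : K := fun q =>
  if q ∈ xs C then (if ∃ n, q ∈ C (2 * n + 1) ∧ ∀ b ∈ C (2 * n + 1), q ≤ b then 2 else 1) else 0

lemma yy_zero {C : ℕ → Finset ℕ} {q : ℕ} : yy C q = 0 ↔ q ∉ xs C := by
  unfold yy
  by_cases h : q ∈ xs C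
  · rw [if_pos h]
    split_ifs <;> simp [h]
  · rw [if_neg h]; simp [h]

lemma yy_two {C : ℕ → Finset ℕ} {q : ℕ} :
    yy C q = 2 ↔ ∃ n, q ∈ C (2 * n + 1) ∧ ∀ b ∈ C (2 * n + 1), q ≤ b := by
  unfold yy
  by_cases h : q ∈ xs C
  · rw [if_pos h]
    split_ifs with h1
    · simp only [h1]
    · simp only [h1, iff_false]
      decide
  · rw [if_neg h]
    constructor
    · intro h1
      exact absurd h1 (by decide)
    · rintro ⟨n, hn, _⟩
      exact absurd ⟨_, hn⟩ h

lemma good_yy {C : ℕ → Finset ℕ} (hC : IsBlock C) : Good C (yy C) := by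
  refine ⟨⟨0, fun q _ hq => yy_zero.2 hq⟩, fun N => ⟨2 * N, by omega, fun q hq => ?_⟩⟩
  have h1 : q ∈ xs C := ⟨_, hq⟩
  unfold yy
  rw [if_pos h1, if_neg]
  rintro ⟨n, hn, _⟩
  have := hC.eq_of_mem hq hn
  omega

lemma good_almostEq {C : ℕ → Finset ℕ} (hC : IsBlock C) {z : K} (hz : AlmostEq z (chi (xs C))) :
    Good C z := by
  obtain ⟨k, hk⟩ := hz
  refine ⟨⟨k, fun q hq hqC => ?_⟩, fun N => ⟨max N k, le_max_left _ _, fun q hq => ?_⟩⟩
  · rw [hk q hq]; unfold chi; rw [if_neg hqC]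
  · have := hC.le_of_mem hq
    have h2 := le_max_right N k
    rw [hk q (by omega)]
    unfold chi
    rw [if_pos ⟨_, hq⟩]

lemma countable_almostEq (w : K) : {z : K | AlmostEq z w}.Countable := by
  have : {z : K | AlmostEq z w} = ⋃ k : ℕ, {z : K | ∀ q, k ≤ q → z q = w q} := by
    ext z
    simp [AlmostEq]
  rw [this]
  refine countable_iUnion (fun k => Set.Finite.countable ?_)
  refine Set.Finite.subset (finite_range
    (fun s : Fin k → Fin 3 => (fun q => if h : q < k then s ⟨q, h⟩ else w q : K))) ?_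
  intro z hz
  refine ⟨fun i => z i, ?_⟩
  funext q
  by_cases h : q < k
  · simp [h]
  · simp only [h, dif_neg, not_false_eq_true]
    exact (hz q (not_lt.1 h)).symm

/-- The Menger set. -/
def MM {ι : Type} (B : ι → ℕ → Finset ℕ) : Set K :=
  {z | ∃ i, z = yy (B i) ∨ AlmostEq z (chi (xs (B i)))}

/-- code of a restriction -/
def codeOf (z : K) (k : ℕ) : Code := (Finset.range k).image (fun q => (q, z q))

lemma mem_cyl_codeOf {z w : K} {k : ℕ} : w ∈ cyl (codeOf z k) ↔ ∀ q < k, w q = z q := by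
  unfold cyl codeOf
  constructor
  · intro h q hq
    exact h (q, z q) (Finset.mem_image.2 ⟨q, Finset.mem_range.2 hq, rfl⟩)
  · rintro h p hp
    obtain ⟨q, hq, rfl⟩ := Finset.mem_image.1 hp
    exact h q (Finset.mem_range.1 hq)

theorem menger_MM {ι : Type} [LinearOrder ι] (B : ι → ℕ → Finset ℕ)
    (hcount : ∀ i : ι, (Iio i).Countable) (hB : ∀ i, IsBlock (B i))
    (hdec : ∀ i j, i < j → Ref (B j) (B i)) (hM : ∀ 𝒱 : ℕ → Set Code, ∃ i, MStep 𝒱 (B i)) :
    Menger (MM B) := by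
  intro 𝒰 h𝒰
  set 𝒱 : ℕ → Set Code := fun n => {l | ∃ U ∈ 𝒰 n, ∀ z : MM B, z.1 ∈ cyl l → z ∈ U} with h𝒱
  have hcov : ∀ n, ∀ z : MM B, ∃ l ∈ 𝒱 n, z.1 ∈ cyl l := by
    intro n z
    have h1 : z ∈ ⋃₀ 𝒰 n := by rw [(h𝒰 n).2]; trivial
    obtain ⟨U, hU, hzU⟩ := h1
    have h2 : IsOpen (Prod.fst ⁻¹' U : Set (MM B × Unit)) :=
      ((h𝒰 n).1 U hU).preimage continuous_fst
    obtain ⟨k, V, _, hV, hk⟩ := box_nhds z () (Prod.fst ⁻¹' U) h2 hzU
    refine ⟨codeOf z.1 k, ⟨U, hU, fun w hw => ?_⟩, mem_cyl_codeOf.2 (fun _ _ => rfl)⟩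
    exact hk w (mem_cyl_codeOf.1 hw) () hV
  obtain ⟨t, ht⟩ := hM 𝒱
  rcases ht with ⟨n, z, hz, hbad⟩ | ⟨ℱ, hℱ, hfit⟩
  · exfalso
    obtain ⟨l, hl, hzl⟩ := hcov n ⟨z, t, Or.inr hz⟩
    exact hbad l hl hzl
  have hchoose : ∀ n, ∀ l : ℱ n, ∃ U ∈ 𝒰 n, ∀ z : MM B, z.1 ∈ cyl l.1 → z ∈ U :=
    fun n l => (hℱ n).2 l.2
  choose U hU1 hU2 using hchoose
  -- the countable remainder
  set S : Set (MM B) := {z | ∃ i < t, z.1 = yy (B i) ∨ AlmostEq z.1 (chi (xs (B i)))} with hS
  have hScount : S.Countable := by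
    have h1 : (⋃ i ∈ Iio t, ({yy (B i)} ∪ {z : K | AlmostEq z (chi (xs (B i)))})).Countable :=
      (hcount t).biUnion (fun i _ => (countable_singleton _).union (countable_almostEq _))
    have h2 : S = Subtype.val ⁻¹' (⋃ i ∈ Iio t, ({yy (B i)} ∪
        {z : K | AlmostEq z (chi (xs (B i)))})) := by
      ext z
      simp only [hS, mem_preimage, mem_iUnion, mem_union, mem_singleton_iff, mem_Iio,
        exists_prop]
      rfl
    rw [h2]
    exact h1.preimage Subtype.val_injective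
  have hSenum : ∃ e : ℕ → Set (Set (MM B)), (∀ n, (e n).Finite ∧ e n ⊆ 𝒰 n) ∧
      ∀ z ∈ S, ∃ n, z ∈ ⋃₀ e n := by
    rcases S.eq_empty_or_nonempty with he | hne
    · exact ⟨fun _ => ∅, fun n => ⟨finite_empty, empty_subset _⟩, fun z hz => by
        rw [he] at hz; exact absurd hz (notMem_empty z)⟩
    · obtain ⟨e, he⟩ := hScount.exists_eq_range hne
      have h1 : ∀ n, ∃ U ∈ 𝒰 n, e n ∈ U := by
        intro n
        have : e n ∈ ⋃₀ 𝒰 n := by rw [(h𝒰 n).2]; trivial
        exact this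
      choose V hV1 hV2 using h1
      refine ⟨fun n => {V n}, fun n => ⟨finite_singleton _, ?_⟩, ?_⟩
      · rintro _ rfl
        exact hV1 n
      · intro z hz
        rw [he] at hz
        obtain ⟨n, rfl⟩ := hz
        exact ⟨n, V n, rfl, hV2 n⟩
  obtain ⟨e, he1, he2⟩ := hSenum
  refine ⟨fun n => range (U n) ∪ e n, fun n => ⟨?_, ?_⟩, ?_⟩
  · have : Finite (ℱ n) := (hℱ n).1
    exact (finite_range _).union (he1 n).1
  · refine union_subset ?_ (he1 n).2
    rintro _ ⟨l, rfl⟩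
    exact hU1 n l
  · intro z
    obtain ⟨i, hi⟩ := z.2
    rcases lt_or_ge i t with hit | hit
    · obtain ⟨n, V, hV, hzV⟩ := he2 z ⟨i, hit, hi⟩
      exact ⟨n, V, Or.inr hV, hzV⟩
    · have hgood : Good (B i) z.1 := by
        rcases hi with h | h
        · rw [h]; exact good_yy (hB i)
        · exact good_almostEq (hB i) h
      have href : Ref (B i) (B t) := by
        rcases hit.lt_or_eq with h | h
        · exact hdec t i h
        · rw [h]; exact Ref.refl _
      obtain ⟨n, hn⟩ := exists_fits (hB i) (hB t) href hgood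
      obtain ⟨l, hl, hzl⟩ := hfit n z.1 hn
      exact ⟨n, U n ⟨l, hl⟩, Or.inl ⟨_, rfl⟩, hU2 n ⟨l, hl⟩ z hzl⟩

/-- number of labels `2` below `k` -/
def cnt (z : K) (k : ℕ) : ℕ := ((Finset.range k).filter (fun q => z q = 2)).card

lemma isOpen_cnt (n k : ℕ) : IsOpen {z : K | n < cnt z k} := by
  rw [isOpen_pi_iff]
  intro z hz
  refine ⟨Finset.range k, fun q => {z q}, fun q _ => ⟨isOpen_discrete _, rfl⟩, ?_⟩
  intro w hw
  have h1 : cnt w k = cnt z k := by
    unfold cnt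
    congr 1
    apply Finset.filter_congr
    intro q hq
    have : w q = z q := hw q (Finset.mem_coe.2 hq)
    rw [this]
  show n < cnt w k
  rw [h1]
  exact hz

theorem not_menger {ι : Type} (B : ι → ℕ → Finset ℕ) (hB : ∀ i, IsBlock (B i))
    (hgap : ∀ h : ℕ → ℕ, ∃ i, Gap h (B i)) :
    ¬ Menger (↥(range (fun i => yy (B i)) ∪ {z : K | ∃ k, ∀ q, k ≤ q → z q = 0}) × ↥(MM B)) := by
  intro hM
  set X : Set K := range (fun i => yy (B i)) ∪ {z : K | ∃ k, ∀ q, k ≤ q → z q = 0} with hX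
  let UU : ℕ → ℕ → Set (X × MM B) := fun n k =>
    {p | (p.1 : K) ≠ (p.2 : K) ∨ n < cnt (p.2 : K) k}
  have hopen : ∀ n k, IsOpen (UU n k) := by
    intro n k
    have h1 : IsOpen {p : X × MM B | (p.1 : K) ≠ (p.2 : K)} :=
      isOpen_ne_fun (continuous_subtype_val.comp continuous_fst)
        (continuous_subtype_val.comp continuous_snd)
    have h2 : IsOpen {p : X × MM B | n < cnt (p.2 : K) k} :=
      (isOpen_cnt n k).preimage (continuous_subtype_val.comp continuous_snd)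
    exact h1.union h2
  obtain ⟨ℱ, hℱ, hcov⟩ := hM (fun n => range (UU n)) (by
    intro n
    refine ⟨?_, ?_⟩
    · rintro _ ⟨k, rfl⟩
      exact hopen n k
    · rw [eq_univ_iff_forall]
      rintro ⟨⟨x, hx⟩, ⟨z, hz⟩⟩
      by_cases hxz : x = z
      · subst hxz
        obtain ⟨i, hi⟩ := hz
        rcases hx with ⟨j, hj⟩ | ⟨k, hk⟩
        · -- the point is a labelled point
          have hj' : yy (B j) = x := hj
          set m : ℕ → ℕ := fun r => ((B j) (2 * r + 1)).min' ((hB j).1 _) with hm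
          have hmem : ∀ r, m r ∈ B j (2 * r + 1) := fun r => Finset.min'_mem _ _
          have h2 : ∀ r, x (m r) = 2 := by
            intro r
            rw [← hj', yy_two]
            exact ⟨r, hmem r, fun b hb => Finset.min'_le _ b hb⟩
          have hinj : Function.Injective m := by
            intro r s hrs
            have h3 := hmem r
            rw [hrs] at h3
            have := (hB j).eq_of_mem h3 (hmem s)
            omega
          set k := (Finset.range (n + 1)).sup m + 1 with hk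
          refine ⟨UU n k, ⟨k, rfl⟩, Or.inr ?_⟩
          show n < cnt x k
          have h4 : (Finset.range (n + 1)).image m ⊆
              (Finset.range k).filter (fun q => x q = 2) := by
            intro q hq
            obtain ⟨r, hr, rfl⟩ := Finset.mem_image.1 hq
            refine Finset.mem_filter.2 ⟨Finset.mem_range.2 ?_, h2 r⟩
            exact Nat.lt_succ_of_le (Finset.le_sup (f := m) hr)
          have h5 := Finset.card_le_card h4
          rw [Finset.card_image_of_injective _ hinj, Finset.card_range] at h5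
          unfold cnt
          omega
        · -- finitely supported points are not in the Menger set
          exfalso
          have hgood : Good (B i) x := by
            rcases hi with h | h
            · rw [h]; exact good_yy (hB i)
            · exact good_almostEq (hB i) h
          obtain ⟨j, hj, hj1⟩ := hgood.2 k
          obtain ⟨q, hq⟩ := (hB i).1 j
          have h1 := hj1 q hq
          have h2 := hk q (hj.trans ((hB i).le_of_mem hq))
          rw [h1] at h2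
          exact absurd h2 (by decide)
      · exact ⟨UU n 0, ⟨0, rfl⟩, Or.inl hxz⟩)
  -- bounds for the selections
  have hb : ∀ n, ∃ h, ∀ k, ∀ p, p ∈ UU n k → UU n k ∈ ℱ n → p ∈ UU n h := by
    intro n
    have hch : ∀ V : ℱ n, ∃ k, UU n k = V.1 := fun V => (hℱ n).2 V.2
    choose kk hkk using hch
    have : Fintype (ℱ n) := (hℱ n).1.fintype
    refine ⟨Finset.univ.sup kk, fun k p hp hk => ?_⟩
    have h1 : UU n (kk ⟨UU n k, hk⟩) = UU n k := hkk ⟨UU n k, hk⟩
    rw [← h1] at hp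
    rcases hp with hp | hp
    · exact Or.inl hp
    · refine Or.inr (lt_of_lt_of_le hp ?_)
      unfold cnt
      apply Finset.card_le_card
      apply Finset.filter_subset_filter
      rw [Finset.range_subset_range]
      exact Finset.le_sup (f := kk) (Finset.mem_univ _)
  choose h hh using hb
  -- a monotone bound
  let h' : ℕ → ℕ := fun n => (Finset.range (n + 1)).sup h
  have hh' : ∀ a b, a ≤ b → h a ≤ h' b := fun a b hab =>
    Finset.le_sup (f := h) (Finset.mem_range.2 (Nat.lt_succ_of_le hab))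
  obtain ⟨i, hi⟩ := hgap h'
  obtain ⟨n, V, hV, hpV⟩ := hcov (⟨yy (B i), Or.inl ⟨i, rfl⟩⟩, ⟨yy (B i), i, Or.inl rfl⟩)
  obtain ⟨k, rfl⟩ := (hℱ n).2 hV
  rcases hh n k _ hpV hV with h1 | h1
  · exact h1 rfl
  · have h1' : n < cnt (yy (B i)) (h n) := h1
    have h2 : (Finset.range (h n)).filter (fun q => yy (B i) q = 2) ⊆
        (Finset.range n).image (fun r => ((B i) (2 * r + 1)).min' ((hB i).1 _)) := by
      intro q hq
      obtain ⟨hq1, hq2⟩ := Finset.mem_filter.1 hq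
      obtain ⟨r, hr1, hr2⟩ := yy_two.1 hq2
      refine Finset.mem_image.2 ⟨r, Finset.mem_range.2 ?_, ?_⟩
      · by_contra hrn
        obtain ⟨a, ha⟩ := (hB i).1 (2 * r)
        have h3 := hi.2 (2 * r) a ha q hr1
        have h4 := (hB i).le_of_mem ha
        have h5 : h n ≤ h' (a + 1) := hh' n (a + 1) (by omega)
        have h6 := Finset.mem_range.1 hq1
        omega
      · apply le_antisymm
        · exact Finset.min'_le _ q hr1
        · exact hr2 _ (Finset.min'_mem _ _)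
    have h3 := Finset.card_le_card h2
    have h4 : ((Finset.range n).image
        (fun r => ((B i) (2 * r + 1)).min' ((hB i).1 _))).card ≤ n :=
      Finset.card_image_le.trans (by rw [Finset.card_range])
    unfold cnt at h1'
    omega

/-- Under the continuum hypothesis there are subspaces `X`, `M` of the compact metrizable space
`{0,1,2}^ℕ` such that `X` is productively Hurewicz, `M` is Menger and `X × M` is not Menger. -/
theorem result (hCH : Cardinal.continuum.{0} = Cardinal.aleph 1) :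
    ∃ X M : Set (ℕ → Fin 3), ProductivelyHurewicz.{0, v} X ∧ Menger M ∧ ¬ Menger (X × M) := by
  obtain ⟨ι, _, B, hcount, hB, hdec, hgap, hstep⟩ := exists_sequence hCH
  refine ⟨range (fun i => yy (B i)) ∪ {z : K | ∃ k, ∀ q, k ≤ q → z q = 0}, MM B, ?_,
    menger_MM B hcount hB hdec hstep, not_menger B hB hgap⟩
  refine tower_productivelyHurewicz hcount (fun i => yy (B i)) ?_ ?_
  · intro i j hij
    have href : Ref (B j) (B i) := by
      rcases hij.lt_or_eq with h | h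
      · exact hdec i j h
      · rw [h]; exact Ref.refl _
    obtain ⟨k, hk⟩ := href
    refine ⟨((Finset.range k).biUnion (B j)).sup id + 1, fun q hq hqi => ?_⟩
    rw [yy_zero] at hqi ⊢
    rintro ⟨n, hn⟩
    rcases lt_or_ge n k with h1 | h1
    · have : q ≤ ((Finset.range k).biUnion (B j)).sup id := Finset.le_sup (f := id)
        (Finset.mem_biUnion.2 ⟨n, Finset.mem_range.2 h1, hn⟩)
      omega
    · obtain ⟨F, hF⟩ := hk n h1
      rw [hF] at hn
      obtain ⟨r, _, hr⟩ := Finset.mem_biUnion.1 hn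
      exact hqi ⟨r, hr⟩
  · intro g
    obtain ⟨i, hi⟩ := hgap g
    refine ⟨i, fun N => ?_⟩
    refine ⟨((B i) N).max' ((hB i).1 _) + 1, ?_, ?_⟩
    · have := (hB i).le_of_mem (Finset.max'_mem _ ((hB i).1 N))
      omega
    · intro q hq1 hq2
      rw [yy_zero]
      rintro ⟨n, hn⟩
      have hmax := Finset.max'_mem _ ((hB i).1 N)
      rcases le_or_gt n N with h1 | h1
      · rcases h1.lt_or_eq with h2 | h2
        · have := (hB i).lt h2 hn hmax
          omega
        · subst h2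
          have := Finset.le_max' _ q hn
          omega
      · obtain ⟨c, hc⟩ := (hB i).1 (N + 1)
        have h3 := hi.2 N _ hmax c hc
        rcases Nat.lt_or_ge (N + 1) n with h4 | h4
        · have := (hB i).lt h4 hc hn
          omega
        · have : n = N + 1 := by omega
          subst this
          have := hi.2 N _ hmax q hn
          omega

end Final

end Pool.Agent.Results.MP_c74059_gt.HurewiczNotMenger
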